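import Pool.Agent.H85.BF.St3
import Pool.Agent.H8.BullGem4
import Pool.Agent.H78.BF.Step5
import Pool.Agent.H3.BF.Glue

/-!
# Assembly of the blocks (MP_e9b9cb_co)
-/

set_option autoImplicit false

namespace BullPD

open Finset

variable {V : Type*} [Fintype V] [DecidableEq V]

theorem BCtx.primeG {G : SimpleGraph V} (hc : BCtx G) : PrimeG G := by
  classical
  intro H hH hm
  have h1 := hc.prime H.toFinset (by
    obtain ⟨a, ha, b, hb, hab⟩ := hH
    exact Finset.one_lt_card.2 ⟨a, by simpa using ha, b, by simpa using hb, hab⟩) (by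
    intro w hw
    rcases hm w (by simpa using hw) with h | h
    · exact Or.inl (fun x hx => h x (by simpa using hx))
    · exact Or.inr (fun x hx => h x (by simpa using hx)))
  ext x
  have : x ∈ H.toFinset ↔ x ∈ (univ : Finset V) := by rw [h1]
  simpa using this

theorem BCtx.gctx {G : SimpleGraph V} (hc : BCtx G) : GCtx G where
  hbf := hc.bull
  hpr := hc.primeG
  hI := by
    classical
    intro v
    obtain ⟨I, hI, hvI, hv⟩ := hc.imp v
    refine ⟨(I : Set V), ?_, ?_, hI.not_bipOn, ?_⟩
    · intro x hx
      have hx' := Finset.mem_coe.1 hx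
      exact ⟨fun h => hvI (h ▸ hx'), hv x hx'⟩
    · intro H hH h2 hm
      have h3 : H.toFinset = I := by
        apply hI.prime
        · intro x hx
          exact Finset.mem_coe.1 (hH (by simpa using hx))
        · obtain ⟨a, ha, b, hb, hab⟩ := h2
          exact Finset.one_lt_card.2 ⟨a, by simpa using ha, b, by simpa using hb, hab⟩
        · intro w hw hwH
          rcases hm w (Finset.mem_coe.2 hw) (by simpa using hwH) with h | h
          · exact Or.inl (fun x hx => h x (by simpa using hx))
          · exact Or.inr (fun x hx => h x (by simpa using hx))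
      rw [← h3]
      simp
    · intro z hz
      exact ca_mig hc.bull hc.prime hI (fun x hx => hz x (Finset.mem_coe.2 hx)) hvI hv
  hCD := by
    intro p1 p2 p3 p4 x z hP x1 x2 x3 x4 hz hzx
    obtain ⟨h12, h23, h34, h13, h24, h14⟩ := hP
    obtain ⟨z1, z2, z3, z4⟩ := hz
    exact cd hc (a := x) (b := p1) (c := p2) (d := p3) (e := p4) x1 h12 h23 h34 x4.symm x2 x3 h13 h14 h24
      hzx z1 z2 z3 z4
  hL0 := by
    classical
    intro H h2 hco hcc hz ha
    by_contra hcon
    obtain ⟨z0, hz0⟩ := hz
    obtain ⟨a0, ha0, ha0'⟩ := ha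
    refine closure_lemma (H := H.toFinset) hc.bull hc.prime ?_ ?_ ?_ (z0 := z0) (a0 := a0) ?_ ?_ ?_ ?_
    · intro T hT hne hTH
      by_contra hn
      push Not at hn
      apply hTH
      have := hco (T : Set V) (by intro x hx; simpa using hT (Finset.mem_coe.1 hx)) (by exact_mod_cast hne) (by
        intro x hx y hy hxy
        by_contra hyT
        exact hn x (Finset.mem_coe.1 hx) y (by simpa using hy) (fun h => hyT (Finset.mem_coe.2 h)) hxy)
      ext x
      rw [← Finset.mem_coe, this]; simp
    · intro T hT hne hTH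
      by_contra hn
      push Not at hn
      apply hTH
      have := hcc (T : Set V) (by intro x hx; simpa using hT (Finset.mem_coe.1 hx)) (by exact_mod_cast hne) (by
        intro x hx y hy _ hxy
        by_contra hyT
        exact hxy (hn x (Finset.mem_coe.1 hx) y (by simpa using hy) (fun h => hyT (Finset.mem_coe.2 h))))
      ext x
      rw [← Finset.mem_coe, this]; simp
    · obtain ⟨a, ha, b, hb, hab⟩ := h2
      exact Finset.one_lt_card.2 ⟨a, by simpa using ha, b, by simpa using hb, hab⟩
    · intro x hx; exact hz0 x (by simpa using hx)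
    · simpa using ha0
    · intro x hx; exact ha0' x (by simpa using hx)
    · intro x h1 h2 hxH z hz a haH ha
      by_contra hn
      push Not at hn
      apply hcon
      refine ⟨x, z, a, by simpa using hxH, ?_, ?_, fun y hy => hz y (by simpa using hy), by simpa using haH,
        fun y hy => ha y (by simpa using hy), hn.1, hn.2⟩
      · intro h
        obtain ⟨u, hu, hxu⟩ := h2
        exact hxu (h u (by simpa using hu))
      · intro h
        obtain ⟨u, hu, hxu⟩ := h1
        exact h u (by simpa using hu) hxu

theorem no_bce {G : SimpleGraph V} {w : V → ℕ} (h : BCE G w) : False := by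
  have hc := h.ctx
  have hg : GemFree G := gemFree_of_gctx hc.gctx (fun S h1 h2 w' hw' => h.ind S w' h2 h1 hw') w h.pos h.bad
  have hX := exists_good h.bull hg (by
    intro p q r p' q' r' a hP a1 a2 a3 a4 a5 a6
    obtain ⟨pq, k13, qr, pq', k13', qr', pp, qq, rr, n1, n2, n3, n4, n5, n6⟩ := hP
    exact pr hc pq qr k13 pq' qr' k13' pp qq rr n1 n2 n3 n4 n5 n6 a1 a2 a3 a4 a5 a6) hc.imp h.ne
  exact h.bad (step6_dv h.bull hg hc.primeG h.col h.pos hX)

theorem main_step (V : Type) [Fintype V] [DecidableEq V] (G : SimpleGraph V) (hb : BullFree G) (h3 : ThreeCol G)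
    (ih : ∀ (S : Finset V) (w : V → ℕ), S.Nonempty → S ≠ univ → (∀ v, 0 < w v) → Dv G w S)
    (w : V → ℕ) (hw : ∀ v, 0 < w v) (hV : Nonempty V) : Dv G w univ := by
  by_contra hcon
  exact no_bce (G := G) (w := w) ⟨hb, h3, hw, ih, hcon, hV⟩

end BullPD
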