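import Mathlib
import Pool.Agent.H8.BullDefs
import Pool.Agent.H8.BullPerf3
import Pool.Agent.H78.BF.Mig
import Pool.Agent.H78.BF.Reduce

/-!
# Common contexts of the bull-free project (MP_e9b9cb_co)

`BCtx` is the setting of steps 3-5 (note 3269), `BCE` is a minimal counterexample on a whole type.
-/

set_option autoImplicit false

namespace BullPD

open Finset

/-- setting of steps 3 - 5: bull-free, prime, every vertex is an anticentre of a minimally imperfect set -/
structure BCtx {V : Type*} [Fintype V] [DecidableEq V] (G : SimpleGraph V) : Prop where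
  bull : BullFree G
  prime : ∀ M : Finset V, 2 ≤ M.card →
    (∀ w, w ∉ M → (∀ x ∈ M, G.Adj w x) ∨ (∀ x ∈ M, ¬ G.Adj w x)) → M = Finset.univ
  imp : ∀ v : V, ∃ I : Finset V, MIG G I ∧ v ∉ I ∧ ∀ x ∈ I, ¬ G.Adj v x

/-- minimal counterexample -/
structure BCE {V : Type*} [Fintype V] [DecidableEq V] (G : SimpleGraph V) (w : V → ℕ) : Prop where
  bull : BullFree G
  col : ThreeCol G
  pos : ∀ v, 0 < w v
  ind : ∀ (S : Finset V) (w : V → ℕ), S.Nonempty → S ≠ univ → (∀ v, 0 < w v) → Dv G w S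
  bad : ¬ Dv G w univ
  ne : Nonempty V

theorem BCE.ctx {V : Type*} [Fintype V] [DecidableEq V] {G : SimpleGraph V} {w : V → ℕ} (h : BCE G w) : BCtx G where
  bull := h.bull
  prime := fun _ h2 hm => prime_of_not_dv h.ind h.pos h.bad h2 hm
  imp := fun v => exists_mig_nonnbr h.pos h.bad v

/-- `x` is adjacent to the four vertices -/
def Z4 {V : Type*} (G : SimpleGraph V) (p1 p2 p3 p4 x : V) : Prop :=
  G.Adj x p1 ∧ G.Adj x p2 ∧ G.Adj x p3 ∧ G.Adj x p4

/-- `x` is adjacent to none of the four vertices -/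
def A4 {V : Type*} (G : SimpleGraph V) (p1 p2 p3 p4 x : V) : Prop :=
  ¬ G.Adj x p1 ∧ ¬ G.Adj x p2 ∧ ¬ G.Adj x p3 ∧ ¬ G.Adj x p4

/-- `x` is adjacent to the two ends only (class `M3` of the proof) -/
def E4 {V : Type*} (G : SimpleGraph V) (p1 p2 p3 p4 x : V) : Prop :=
  G.Adj x p1 ∧ ¬ G.Adj x p2 ∧ ¬ G.Adj x p3 ∧ G.Adj x p4

end BullPD
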