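import Pool.Agent.H85.BF.Ctx
import Pool.Agent.H85.BP.CA
import Pool.Agent.H85.BP.L0
import Pool.Agent.H85.BP.CDc
import Pool.Agent.H85.BP.PRc

/-!
# Step 3 in the common form (MP_e9b9cb_co)
-/

set_option autoImplicit false

namespace BullPD

open Finset


variable {V : Type*} [Fintype V] [DecidableEq V]

theorem St3_bf {G : SimpleGraph V} (hb : BullFree G) : Pool.Agent.H85.BP.BF G :=
  fun a b c d e ab bc ac da db dc eb ea ec => hb a b c d e ab ac bc da eb db dc ea ec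

theorem St3_pri {G : SimpleGraph V} (hp : ∀ M : Finset V, 2 ≤ M.card →
      (∀ w, w ∉ M → (∀ x ∈ M, G.Adj w x) ∨ (∀ x ∈ M, ¬ G.Adj w x)) → M = Finset.univ) :
    Pool.Agent.H85.BP.Pri G univ :=
  fun M hM h2 => hp M h2 (fun w hw => hM.2 w (mem_univ w) hw)

omit [Fintype V] in
theorem St3_mig_pri {G : SimpleGraph V} {I : Finset V} (hI : MIG G I) : Pool.Agent.H85.BP.Pri G I :=
  fun _ hM h2 => hI.prime hM.1 h2 hM.2

omit [Fintype V] in
theorem St3_mig_nsplit {G : SimpleGraph V} {I : Finset V} (hI : MIG G I) : ¬ Pool.Agent.H85.BP.Split G I := by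
  classical
  rintro ⟨N, hN, hst, hcl⟩
  by_cases hne : N.Nonempty
  · obtain ⟨x, hx⟩ := hne
    have h1 := hI.omega_le_degree (hN hx)
    have h2 : G.IsClique ((insert x (I.filter (G.Adj x)) : Finset V) : Set V) := by
      intro a ha b hb hab
      rw [mem_coe, mem_insert, mem_filter] at ha hb
      have hout : ∀ c, c ∈ I → G.Adj x c → c ∉ N := fun c _ hxc hcN => hst x hx c hcN hxc
      rcases ha with rfl | ha
      · rcases hb with rfl | hb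
        · exact absurd rfl hab
        · exact hb.2
      · rcases hb with rfl | hb
        · exact ha.2.symm
        · exact hcl a ha.1 b hb.1 (hout a ha.1 ha.2) (hout b hb.1 hb.2) hab
    have h3 := le_omW (G := G) (f := fun _ => 1) (S := I) (K := insert x (I.filter (G.Adj x))) (by
      intro y hy
      rw [mem_insert, mem_filter] at hy
      rcases hy with rfl | hy
      · exact hN hx
      · exact hy.1) h2
    rw [Finset.sum_const, Finset.card_insert_of_notMem (by simp)] at h3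
    simp only [smul_eq_mul, mul_one] at h3
    omega
  · rw [Finset.not_nonempty_iff_eq_empty] at hne
    subst hne
    exact hI.1 (perfOn_of_clique (fun x hx y hy hxy => hcl x hx y hy (by simp) (by simp) hxy))

theorem ca_mig {G : SimpleGraph V} (hb : BullFree G)
    (hp : ∀ M : Finset V, 2 ≤ M.card →
      (∀ w, w ∉ M → (∀ x ∈ M, G.Adj w x) ∨ (∀ x ∈ M, ¬ G.Adj w x)) → M = Finset.univ)
    {I : Finset V} (hI : MIG G I) {z a : V}
    (hz : ∀ x ∈ I, G.Adj z x) (ha : a ∉ I) (ha' : ∀ x ∈ I, ¬ G.Adj a x) : False := by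
  have h5 := hI.five_le_card
  exact Pool.Agent.H85.BP.ca (St3_bf hb) (St3_pri hp) (St3_mig_pri hI) (by omega) (St3_mig_nsplit hI) hz ⟨ha, ha'⟩

theorem cd {G : SimpleGraph V} (hc : BCtx G) {a b c d e z : V}
    (ab : G.Adj a b) (bc : G.Adj b c) (cd : G.Adj c d) (de : G.Adj d e) (ea : G.Adj e a)
    (ac : ¬ G.Adj a c) (ad : ¬ G.Adj a d) (bd : ¬ G.Adj b d) (be : ¬ G.Adj b e) (ce : ¬ G.Adj c e)
    (za : G.Adj z a) (zb : G.Adj z b) (zc : G.Adj z c) (zd : G.Adj z d) (ze : G.Adj z e) : False := by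
  obtain ⟨I, hI, hzI, hz⟩ := hc.imp z
  have h5 := hI.five_le_card
  exact Pool.Agent.H85.BP.cd_core (St3_bf hc.bull) (St3_pri hc.prime) (a := a) (b := b) (c := c) (d := d) (e := e)
    ⟨ab, bc, cd, de, ea, ac, ad, bd, be, ce⟩ za zb zc zd ze (St3_mig_pri hI) (by omega) (St3_mig_nsplit hI) ⟨hzI, hz⟩

theorem pr {G : SimpleGraph V} (hc : BCtx G) {p q r p' q' r' a : V}
    (pq : G.Adj p q) (qr : G.Adj q r) (pr : G.Adj p r) (pq' : G.Adj p' q') (qr' : G.Adj q' r') (pr' : G.Adj p' r')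
    (pp : G.Adj p p') (qq : G.Adj q q') (rr : G.Adj r r')
    (n1 : ¬ G.Adj p q') (n2 : ¬ G.Adj p r') (n3 : ¬ G.Adj q p') (n4 : ¬ G.Adj q r') (n5 : ¬ G.Adj r p') (n6 : ¬ G.Adj r q')
    (ap : ¬ G.Adj a p) (aq : ¬ G.Adj a q) (ar : ¬ G.Adj a r) (ap' : ¬ G.Adj a p') (aq' : ¬ G.Adj a q')
    (ar' : ¬ G.Adj a r') : False :=
  Pool.Agent.H85.BP.pr_core (St3_bf hc.bull) (St3_pri hc.prime)
    ⟨pq, qr, pr, pq', qr', pr', pp, qq, rr, n1, n2, n3, n4, n5, n6⟩ ap aq ar ap' aq' ar'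

theorem closure_lemma {G : SimpleGraph V} (hb : BullFree G)
    (hp : ∀ M : Finset V, 2 ≤ M.card →
      (∀ w, w ∉ M → (∀ x ∈ M, G.Adj w x) ∨ (∀ x ∈ M, ¬ G.Adj w x)) → M = Finset.univ) {H : Finset V}
    (hc : ∀ T ⊆ H, T.Nonempty → T ≠ H → ∃ x ∈ T, ∃ y ∈ H, y ∉ T ∧ G.Adj x y)
    (hcc : ∀ T ⊆ H, T.Nonempty → T ≠ H → ∃ x ∈ T, ∃ y ∈ H, y ∉ T ∧ ¬ G.Adj x y)
    (h2 : 2 ≤ H.card) {z0 a0 : V} (hz0 : ∀ x ∈ H, G.Adj z0 x) (ha0 : a0 ∉ H) (ha0' : ∀ x ∈ H, ¬ G.Adj a0 x)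
    (h3 : ∀ x, (∃ u ∈ H, G.Adj x u) → (∃ u ∈ H, ¬ G.Adj x u) → x ∉ H → ∀ z, (∀ u ∈ H, G.Adj z u) →
      ∀ a, a ∉ H → (∀ u ∈ H, ¬ G.Adj a u) → G.Adj x z ∨ ¬ G.Adj x a) : False := by
  refine Pool.Agent.H85.BP.closure_lemma (St3_bf hb) (St3_pri hp) (H := H) ?_ ?_ h2 (z0 := z0) (a0 := a0) hz0 ⟨ha0, ha0'⟩ ?_
  · intro T hT hne h
    by_contra hTH
    obtain ⟨x, hx, y, hy, hyT, hxy⟩ := hc T hT hne hTH
    exact h x hx y hy hyT hxy
  · intro T hT hne h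
    by_contra hTH
    obtain ⟨x, hx, y, hy, hyT, hxy⟩ := hcc T hT hne hTH
    exact hxy (h x hx y hy hyT)
  · intro x h1 h2 hxH z hz a ha
    exact h3 x h1 h2 hxH z hz a ha.1 ha.2

end BullPD
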